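import Mathlib

namespace Pool.Agent.H349Z.OCN

/-- The edge-ordered graph `(G, oG)` contains the edge-ordered graph `(F, oF)`: there is an
injective graph homomorphism `F → G` (an isomorphism of `F` onto a subgraph of `G`) under which
the order of the edges of `F` is the order induced from `G`. -/
def Contains {V W : Type} (G : SimpleGraph V) (oG : LinearOrder G.edgeSet)
    (F : SimpleGraph W) (oF : LinearOrder F.edgeSet) : Prop :=
  ∃ φ : F →g G, Function.Injective φ ∧
    ∀ e e' : F.edgeSet, oF.lt e e' ↔ oG.lt (φ.mapEdgeSet e) (φ.mapEdgeSet e')

/-- The order chromatic number of the edge-ordered graph `(F, oF)`: the least chromatic number of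
a finite simple graph `H` every edge-ordering of which contains `(F, oF)`; it is `⊤` if there is
no such `H`. -/
noncomputable def orderChrom {W : Type} (F : SimpleGraph W) (oF : LinearOrder F.edgeSet) : ℕ∞ :=
  ⨅ (N : ℕ) (H : SimpleGraph (Fin N)) (_ : ∀ o : LinearOrder H.edgeSet, Contains H o F oF),
    H.chromaticNumber

end Pool.Agent.H349Z.OCN
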