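import Pool.Agent.H349Z.OCN.Upper

namespace Pool.Agent.H349Z.OCN

def mn (i : ℕ) : ℕ :=
  4 * (i / 5) + (if i % 5 = 0 then 0 else if i % 5 = 1 then 2 else if i % 5 = 4 then 3 else 1)

theorem mn_of_rk {i j : ℕ} (h : rk i < rk j) : mn i < mn j ∨ (i % 5 = 3 ∧ j + 1 = i) := by
  unfold rk at h
  unfold mn
  split_ifs at h ⊢ <;> omega

def p1 (m i : ℕ) : ℕ :=
  if i % 5 = 0 then 4 * (i / 5) else if i % 5 = 1 then 4 * (i / 5) + 2 else
    if i % 5 = 2 then 4 * m + 1 + i / 5 else if i % 5 = 3 then 4 * (i / 5) + 1 else 4 * (i / 5) + 3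

def p2 (m i : ℕ) : ℕ :=
  if i % 5 = 0 then 4 * (i / 5) else if i % 5 = 1 then 4 * m + 1 + i / 5 else
    if i % 5 = 2 then 4 * (i / 5) + 2 else if i % 5 = 3 then 4 * (i / 5) + 1 else 4 * (i / 5) + 3

theorem p1_lt {m i : ℕ} (h : i ≤ 5 * m) : p1 m i < 5 * m + 1 := by
  unfold p1
  split_ifs <;> omega

theorem p2_lt {m i : ℕ} (h : i ≤ 5 * m) : p2 m i < 5 * m + 1 := by
  unfold p2
  split_ifs <;> omega

theorem p1_inj {m i j : ℕ} (hi : i ≤ 5 * m) (hj : j ≤ 5 * m) (h : p1 m i = p1 m j) : i = j := by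
  unfold p1 at h
  split_ifs at h <;> omega

theorem p2_inj {m i j : ℕ} (hi : i ≤ 5 * m) (hj : j ≤ 5 * m) (h : p2 m i = p2 m j) : i = j := by
  unfold p2 at h
  split_ifs at h <;> omega

theorem p1_min {m i : ℕ} (h : i < 5 * m) : min (p1 m i) (p1 m (i + 1)) = mn i := by
  unfold p1 mn
  split_ifs <;> omega

theorem p2_min {m i : ℕ} (h : i < 5 * m) : min (p2 m i) (p2 m (i + 1)) = mn i := by
  unfold p2 mn
  split_ifs <;> omega

theorem p1_max {m j : ℕ} (h : j + 1 < 5 * m) (h3 : (j + 1) % 5 = 3) :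
    p1 m (j + 1) < p1 m (j + 1 + 1) ∧ p1 m (j + 1 + 1) < p1 m j := by
  unfold p1
  split_ifs <;> omega

theorem p2_max {m j : ℕ} (h : j + 1 < 5 * m) (h3 : (j + 1) % 5 = 3) :
    p2 m (j + 1) < p2 m j ∧ p2 m j < p2 m (j + 1 + 1) := by
  unfold p2
  split_ifs <;> omega

/-- embedding into a structure dominated by the smaller endpoint; `R` is the order relation -/
theorem emb_inc (m : ℕ) (V : ℕ → ℕ → ℕ) (hs : ∀ x y, V x y = V y x) (R : ℕ → ℕ → Prop)
    (h1 : ∀ a b c d, a < b → b < 5 * m + 1 → c < d → d < 5 * m + 1 → a < c → R (V a b) (V c d))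
    (h2 : (∀ a b c, a < b → b < c → c < 5 * m + 1 → R (V a b) (V a c)) ∨
      (∀ a b c, a < b → b < c → c < 5 * m + 1 → R (V a c) (V a b))) :
    ∃ p : ℕ → ℕ, (∀ i, i ≤ 5 * m → p i < 5 * m + 1) ∧
      (∀ i j, i ≤ 5 * m → j ≤ 5 * m → p i = p j → i = j) ∧
      ∀ i j, i < 5 * m → j < 5 * m → rk i < rk j → R (V (p i) (p (i + 1))) (V (p j) (p (j + 1))) := by
  have hmm : ∀ x y, V x y = V (min x y) (max x y) := by
    intro x y
    rcases le_total x y with h | h
    · rw [min_eq_left h, max_eq_right h]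
    · rw [min_eq_right h, max_eq_left h, hs]
  have gen : ∀ p : ℕ → ℕ, (∀ i, i ≤ 5 * m → p i < 5 * m + 1) →
      (∀ i j, i ≤ 5 * m → j ≤ 5 * m → p i = p j → i = j) →
      (∀ i, i < 5 * m → min (p i) (p (i + 1)) = mn i) →
      ∀ i j, i < 5 * m → j < 5 * m → mn i < mn j →
        R (V (p i) (p (i + 1))) (V (p j) (p (j + 1))) := by
    intro p hp hinj hmin i j hi hj hlt
    rw [hmm (p i), hmm (p j)]
    have a1 := hp i (by omega)
    have a2 := hp (i + 1) (by omega)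
    have a3 := hp j (by omega)
    have a4 := hp (j + 1) (by omega)
    have b1 : p i ≠ p (i + 1) := fun h => by
      have := hinj _ _ (by omega) (by omega) h
      omega
    have b2 : p j ≠ p (j + 1) := fun h => by
      have := hinj _ _ (by omega) (by omega) h
      omega
    have c1 := hmin i hi
    have c2 := hmin j hj
    exact h1 _ _ _ _ (by omega) (by omega) (by omega) (by omega) (by omega)
  rcases h2 with h2 | h2
  · refine ⟨p1 m, fun i => p1_lt, fun i j => p1_inj, ?_⟩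
    intro i j hi hj h
    rcases mn_of_rk h with h' | ⟨h3, rfl⟩
    · exact gen (p1 m) (fun i => p1_lt) (fun i j => p1_inj) (fun i => p1_min) i j hi hj h'
    · obtain ⟨e1, e2⟩ := p1_max hi h3
      rw [hs (p1 m j)]
      exact h2 _ _ _ e1 e2 (p1_lt (by omega))
  · refine ⟨p2 m, fun i => p2_lt, fun i j => p2_inj, ?_⟩
    intro i j hi hj h
    rcases mn_of_rk h with h' | ⟨h3, rfl⟩
    · exact gen (p2 m) (fun i => p2_lt) (fun i j => p2_inj) (fun i => p2_min) i j hi hj h'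
    · obtain ⟨e1, e2⟩ := p2_max hi h3
      rw [hs (p2 m j)]
      exact h2 _ _ _ e1 e2 (p2_lt (by omega))

theorem rk_rev {m i j : ℕ} (hi : i < 5 * m) (hj : j < 5 * m) (h : rk i < rk j) :
    rk (5 * m - 1 - j) < rk (5 * m - 1 - i) := by
  unfold rk at h ⊢
  split_ifs at h ⊢ <;> omega

theorem emb (m : ℕ) : ∃ M : ℕ, ∀ W : ℕ → ℕ → ℕ, (∀ x y, W x y = W y x) →
    (∀ x y x' y', x < y → y < M → x' < y' → y' < M → W x y = W x' y' → x = x' ∧ y = y') →
    ∃ q : ℕ → ℕ, (∀ i, i ≤ 5 * m → q i < M) ∧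
      (∀ i j, i ≤ 5 * m → j ≤ 5 * m → q i = q j → i = j) ∧
      ∀ i j, i < 5 * m → j < 5 * m → rk i < rk j → W (q i) (q (i + 1)) < W (q j) (q (j + 1)) := by
  obtain ⟨M, hM⟩ := canon (5 * m + 1)
  refine ⟨M, fun W hs hi => ?_⟩
  obtain ⟨t, htM, htinj, h1, h2⟩ := hM W hs hi
  rcases h1 with h1 | h1
  · obtain ⟨p, hp, hpi, hr⟩ := emb_inc m (fun a b => W (t a) (t b)) (fun x y => hs _ _)
      (fun x y => x < y) h1 h2
    exact ⟨fun i => t (p i), fun i hi => htM _ (hp i hi),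
      fun i j hi hj h => hpi i j hi hj (htinj _ _ (hp i hi) (hp j hj) h), hr⟩
  · obtain ⟨p, hp, hpi, hr⟩ := emb_inc m (fun a b => W (t a) (t b)) (fun x y => hs _ _)
      (fun x y => y < x) h1 h2.symm
    refine ⟨fun i => t (p (5 * m - i)), fun i hi => htM _ (hp _ (by omega)), fun i j hi hj h => ?_,
      fun i j hi hj h => ?_⟩
    · have := hpi _ _ (by omega) (by omega) (htinj _ _ (hp _ (by omega)) (hp _ (by omega)) h)
      omega
    · have := hr _ _ (by omega) (by omega) (rk_rev hi hj h)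
      have e1 : 5 * m - 1 - j + 1 = 5 * m - j := by omega
      have e2 : 5 * m - 1 - i + 1 = 5 * m - i := by omega
      have e3 : 5 * m - (j + 1) = 5 * m - 1 - j := by omega
      have e4 : 5 * m - (i + 1) = 5 * m - 1 - i := by omega
      simp only [e1, e2] at this
      simp only [e3, e4]
      rw [hs (t (p (5 * m - i))), hs (t (p (5 * m - j)))]
      exact this

theorem exists_rank {α : Type} [Finite α] (o : LinearOrder α) :
    ∃ r : α → ℕ, (∀ e e', o.lt e e' ↔ r e < r e') ∧ Function.Injective r := by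
  have := Fintype.ofFinite α
  let g := monoEquivOfFin α rfl
  refine ⟨fun e => (g.symm e).val, fun e e' => ?_, fun e e' h => ?_⟩
  · rw [← Fin.lt_def, g.symm.lt_iff_lt]
  · exact g.symm.injective (Fin.ext h)

theorem upper (m : ℕ) : ∃ M : ℕ, ∀ o : LinearOrder (⊤ : SimpleGraph (Fin M)).edgeSet,
    Contains ⊤ o (SimpleGraph.pathGraph (5 * m + 1)) (pathOrd (5 * m + 1)) := by
  classical
  obtain ⟨M, hM⟩ := emb m
  refine ⟨M, fun o => ?_⟩
  obtain ⟨r, hr, rinj⟩ := exists_rank o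
  let W : ℕ → ℕ → ℕ := fun x y =>
    if h : x < M ∧ y < M ∧ x ≠ y then
      r ⟨s(⟨x, h.1⟩, ⟨y, h.2.1⟩), by simpa using h.2.2⟩ else 0
  have hW : ∀ x y (hx : x < M) (hy : y < M) (h : x ≠ y),
      W x y = r ⟨s(⟨x, hx⟩, ⟨y, hy⟩), by simpa using h⟩ := by
    intro x y hx hy h
    exact dif_pos ⟨hx, hy, h⟩
  obtain ⟨q, hq, hqi, hqr⟩ := hM W (by
    intro x y
    by_cases h : x < M ∧ y < M ∧ x ≠ y
    · rw [hW x y h.1 h.2.1 h.2.2, hW y x h.2.1 h.1 h.2.2.symm]
      congr 2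
      exact Sym2.eq_swap
    · have h' : ¬ (y < M ∧ x < M ∧ y ≠ x) := fun h' => h ⟨h'.2.1, h'.1, h'.2.2.symm⟩
      simp only [W, dif_neg h, dif_neg h']) (by
    intro x y x' y' h1 h2 h3 h4 h
    rw [hW x y (by omega) h2 (by omega), hW x' y' (by omega) h4 (by omega)] at h
    have := congrArg Subtype.val (rinj h)
    simp only [Sym2.eq_iff, Fin.mk.injEq] at this
    omega)
  let f : Fin (5 * m + 1) → Fin M := fun i => ⟨q i.val, hq _ (by omega)⟩
  have hf : Function.Injective f := by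
    intro i j h
    apply Fin.ext
    exact hqi _ _ (by omega) (by omega) (congrArg Fin.val h)
  let φ : SimpleGraph.pathGraph (5 * m + 1) →g (⊤ : SimpleGraph (Fin M)) :=
    ⟨f, fun h => by simpa using hf.ne h.ne⟩
  have hφ : ∀ e : (SimpleGraph.pathGraph (5 * m + 1)).edgeSet,
      idx e.1 < 5 * m ∧ r (φ.mapEdgeSet e) = W (q (idx e.1)) (q (idx e.1 + 1)) := by
    intro e
    obtain ⟨h, he⟩ := edge_form e
    refine ⟨by omega, ?_⟩
    rw [hW _ _ (hq _ (by omega)) (hq _ (by omega)) (fun h' => by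
      have := hqi _ _ (by omega) (by omega) h'
      omega)]
    congr 1
    apply Subtype.ext
    exact (congrArg (Sym2.map φ) he).trans rfl
  refine ⟨φ, hf, fun e e' => ?_⟩
  rw [pathOrd_lt, hr, (hφ e).2, (hφ e').2]
  refine ⟨hqr _ _ (hφ e).1 (hφ e').1, fun h => ?_⟩
  rcases lt_trichotomy (rk (idx e.1)) (rk (idx e'.1)) with h' | h' | h'
  · exact h'
  · rw [rk_inj h'] at h
    omega
  · have := hqr _ _ (hφ e').1 (hφ e).1 h'
    omega

theorem expo (m : ℕ) (hm : 0 < m) : ∃ c : ℕ, 2 ^ m < c ∧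
    orderChrom (SimpleGraph.pathGraph (5 * m + 1)) (pathOrd (5 * m + 1)) = c := by
  have h1 : ((2 ^ m + 1 : ℕ) : ℕ∞) ≤
      orderChrom (SimpleGraph.pathGraph (5 * m + 1)) (pathOrd (5 * m + 1)) :=
    le_iInf fun N => le_iInf fun H => le_iInf fun hH => lower m hm N H hH
  obtain ⟨M, hM⟩ := upper m
  have h2 : orderChrom (SimpleGraph.pathGraph (5 * m + 1)) (pathOrd (5 * m + 1)) ≤ (M : ℕ∞) := by
    refine iInf_le_of_le M (iInf_le_of_le ⊤ (iInf_le_of_le hM ?_))
    simp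
  have h3 : orderChrom (SimpleGraph.pathGraph (5 * m + 1)) (pathOrd (5 * m + 1)) ≠ ⊤ :=
    ne_top_of_le_ne_top (ENat.natCast_ne_top M) h2
  obtain ⟨c, hc⟩ := ENat.ne_top_iff_exists.mp h3
  refine ⟨c, ?_, hc.symm⟩
  rw [← hc] at h1
  exact_mod_cast h1

theorem poly_lt (p : Polynomial ℝ) : ∃ m : ℕ, 0 < m ∧ p.eval ((5 * m + 1 : ℕ) : ℝ) < 2 ^ m := by
  let q : Polynomial ℝ := p.comp (Polynomial.C (5 / Real.log 2) * Polynomial.X + 1)
  have hl : 0 < Real.log 2 := Real.log_pos (by norm_num)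
  have h1 := q.tendsto_div_exp_atTop
  have h2 : Filter.Tendsto (fun m : ℕ => (m : ℝ) * Real.log 2) Filter.atTop Filter.atTop :=
    tendsto_natCast_atTop_atTop.atTop_mul_const hl
  have h3 := (h1.comp h2).eventually (gt_mem_nhds (show (0 : ℝ) < 1 by norm_num))
  obtain ⟨m, hm, hm0⟩ := (h3.and (Filter.eventually_gt_atTop 0)).exists
  refine ⟨m, hm0, ?_⟩
  simp only [Function.comp] at hm
  rw [div_lt_one (Real.exp_pos _), Real.exp_nat_mul, Real.exp_log (by norm_num)] at hm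
  have e : q.eval ((m : ℝ) * Real.log 2) = p.eval ((5 * m + 1 : ℕ) : ℝ) := by
    simp only [q, Polynomial.eval_comp, Polynomial.eval_add, Polynomial.eval_mul, Polynomial.eval_C,
      Polynomial.eval_X, Polynomial.eval_one]
    congr 1
    push_cast
    field_simp
  rwa [e] at hm

end Pool.Agent.H349Z.OCN
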