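import Pool.Agent.H349Z.OCN.Defs

namespace Pool.Agent.H349Z.OCN

/-- rank of the `i`-th edge of the path: blocks of five edges ranked `1 4 3 2 5`. -/
def rk (i : ℕ) : ℕ := if i % 5 = 1 then i + 2 else if i % 5 = 3 then i - 2 else i

theorem rk_inj {i j : ℕ} (h : rk i = rk j) : i = j := by
  unfold rk at h
  split_ifs at h <;> omega

/-- index of an edge of a path -/
def idx {k : ℕ} (e : Sym2 (Fin k)) : ℕ :=
  Sym2.lift ⟨fun u v => min u.val v.val, fun _ _ => min_comm _ _⟩ e

theorem idx_mk {k : ℕ} (u v : Fin k) : idx s(u, v) = min u.val v.val := rfl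

theorem edge_form {k : ℕ} (e : (SimpleGraph.pathGraph k).edgeSet) :
    ∃ (h : idx e.1 + 1 < k), e.1 = s(⟨idx e.1, by omega⟩, ⟨idx e.1 + 1, h⟩) := by
  obtain ⟨e, he⟩ := e
  induction e using Sym2.ind with
  | h u v =>
    rw [SimpleGraph.mem_edgeSet, SimpleGraph.pathGraph_adj] at he
    have hu := u.2
    have hv := v.2
    simp only [idx_mk]
    refine ⟨by omega, ?_⟩
    rcases he with he | he
    · rw [Sym2.eq_iff]
      left
      constructor <;> apply Fin.ext <;> simp <;> omega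
    · rw [Sym2.eq_iff]
      right
      constructor <;> apply Fin.ext <;> simp <;> omega

theorem idx_inj {k : ℕ} {e e' : (SimpleGraph.pathGraph k).edgeSet} (h : idx e.1 = idx e'.1) :
    e = e' := by
  obtain ⟨h1, he⟩ := edge_form e
  obtain ⟨h2, he'⟩ := edge_form e'
  apply Subtype.ext
  rw [he, he']
  simp only [h]

/-- the edge order on the path -/
@[reducible] def pathOrd (k : ℕ) : LinearOrder (SimpleGraph.pathGraph k).edgeSet :=
  LinearOrder.lift' (fun e => rk (idx e.1)) (fun _ _ h => idx_inj (rk_inj h))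

theorem pathOrd_lt {k : ℕ} (e e' : (SimpleGraph.pathGraph k).edgeSet) :
    (pathOrd k).lt e e' ↔ rk (idx e.1) < rk (idx e'.1) := Iff.rfl

/-- the `i`-th edge -/
def edgeAt {k : ℕ} (i : ℕ) (h : i + 1 < k) : (SimpleGraph.pathGraph k).edgeSet :=
  ⟨s(⟨i, by omega⟩, ⟨i + 1, h⟩), by
    rw [SimpleGraph.mem_edgeSet, SimpleGraph.pathGraph_adj]
    left; rfl⟩

theorem idx_edgeAt {k : ℕ} (i : ℕ) (h : i + 1 < k) : idx (edgeAt i h).1 = i := by
  simp [edgeAt, idx_mk]

/-! ### the edge order on a graph with a colouring by numbers below `2 ^ m` -/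

/-- first bit where two numbers differ -/
noncomputable def lev (a b : ℕ) : ℕ := sInf {i | a.testBit i ≠ b.testBit i}

theorem lev_comm (a b : ℕ) : lev a b = lev b a := by
  unfold lev
  congr 1
  ext i
  exact ne_comm

theorem lev_spec {a b : ℕ} (h : a ≠ b) : a.testBit (lev a b) ≠ b.testBit (lev a b) := by
  have : {i | a.testBit i ≠ b.testBit i}.Nonempty := by
    by_contra hc
    apply h
    apply Nat.eq_of_testBit_eq
    intro i
    by_contra hi
    exact hc ⟨i, hi⟩
  exact Nat.sInf_mem this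

theorem lev_lt {a b m : ℕ} (h : a ≠ b) (ha : a < 2 ^ m) (hb : b < 2 ^ m) : lev a b < m := by
  by_contra hc
  have hc : m ≤ lev a b := by omega
  have h1 : a < 2 ^ lev a b := lt_of_lt_of_le ha (Nat.pow_le_pow_right (by norm_num) hc)
  have h2 : b < 2 ^ lev a b := lt_of_lt_of_le hb (Nat.pow_le_pow_right (by norm_num) hc)
  have := lev_spec h
  rw [Nat.testBit_lt_two_pow h1, Nat.testBit_lt_two_pow h2] at this
  exact this rfl

def enc {N : ℕ} (c : Fin N → ℕ) (d : ℕ) (x : Fin N) : ℕ :=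
  if (c x).testBit d then N + x.val else x.val

theorem enc_inj {N : ℕ} (c : Fin N → ℕ) (d : ℕ) {x y : Fin N} (h : enc c d x = enc c d y) :
    x = y := by
  have hx := x.2
  have hy := y.2
  apply Fin.ext
  unfold enc at h
  split_ifs at h <;> omega

noncomputable def key {N : ℕ} (c : Fin N → ℕ) (x y : Fin N) : ℕ ×ₗ ℕ ×ₗ ℕ :=
  toLex (lev (c x) (c y), toLex (min (enc c (lev (c x) (c y)) x) (enc c (lev (c x) (c y)) y),
    max (enc c (lev (c x) (c y)) x) (enc c (lev (c x) (c y)) y)))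

theorem key_comm {N : ℕ} (c : Fin N → ℕ) (x y : Fin N) : key c x y = key c y x := by
  unfold key
  rw [lev_comm (c y) (c x), min_comm, max_comm]

noncomputable def keyS {N : ℕ} (c : Fin N → ℕ) (e : Sym2 (Fin N)) : ℕ ×ₗ ℕ ×ₗ ℕ :=
  Sym2.lift ⟨key c, key_comm c⟩ e

theorem keyS_inj {N : ℕ} (c : Fin N → ℕ) : Function.Injective (keyS c) := by
  intro e e' h
  induction e using Sym2.ind with
  | h x y =>
  induction e' using Sym2.ind with
  | h x' y' =>
    change key c x y = key c x' y' at h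
    unfold key at h
    simp only [toLex_inj, Prod.mk.injEq] at h
    obtain ⟨h1, h2, h3⟩ := h
    rw [← h1] at h2 h3
    generalize lev (c x) (c y) = d at h2 h3
    rw [Sym2.eq_iff]
    have : (enc c d x = enc c d x' ∧ enc c d y = enc c d y') ∨
        (enc c d x = enc c d y' ∧ enc c d y = enc c d x') := by omega
    rcases this with ⟨a, b⟩ | ⟨a, b⟩
    · exact Or.inl ⟨enc_inj c d a, enc_inj c d b⟩
    · exact Or.inr ⟨enc_inj c d a, enc_inj c d b⟩

theorem key_lt {N : ℕ} (c : Fin N → ℕ) {x y x' y' : Fin N} (h : key c x y < key c x' y') :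
    lev (c x) (c y) ≤ lev (c x') (c y') ∧ (lev (c x) (c y) = lev (c x') (c y') →
      min (enc c (lev (c x) (c y)) x) (enc c (lev (c x) (c y)) y) ≤
        min (enc c (lev (c x') (c y')) x') (enc c (lev (c x') (c y')) y')) := by
  unfold key at h
  rw [Prod.Lex.toLex_lt_toLex] at h
  rcases h with h | ⟨h1, h2⟩
  · simp only at h
    exact ⟨h.le, fun h' => absurd h' h.ne⟩
  · simp only at h1 h2
    refine ⟨h1.le, fun _ => ?_⟩
    rw [Prod.Lex.toLex_lt_toLex] at h2
    simp only at h2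
    omega

theorem block_lt {N : ℕ} (c : Fin N → ℕ) (u0 u1 u2 u3 u4 u5 : Fin N)
    (h13 : u1 ≠ u3) (h24 : u2 ≠ u4)
    (c0 : c u0 ≠ c u1) (c1 : c u1 ≠ c u2) (c2 : c u2 ≠ c u3) (c3 : c u3 ≠ c u4)
    (c4 : c u4 ≠ c u5)
    (k1 : key c u0 u1 < key c u3 u4) (k2 : key c u3 u4 < key c u2 u3)
    (k3 : key c u2 u3 < key c u1 u2) (k4 : key c u1 u2 < key c u4 u5) :
    lev (c u0) (c u1) < lev (c u4) (c u5) := by
  obtain ⟨a1, b1⟩ := key_lt c k1
  obtain ⟨a2, b2⟩ := key_lt c k2
  obtain ⟨a3, b3⟩ := key_lt c k3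
  obtain ⟨a4, b4⟩ := key_lt c k4
  by_contra hc
  have e1 : lev (c u3) (c u4) = lev (c u0) (c u1) := by omega
  have e2 : lev (c u2) (c u3) = lev (c u0) (c u1) := by omega
  have e3 : lev (c u1) (c u2) = lev (c u0) (c u1) := by omega
  have e4 : lev (c u4) (c u5) = lev (c u0) (c u1) := by omega
  have s0 := lev_spec c0
  have s1 := lev_spec c1
  have s2 := lev_spec c2
  have s3 := lev_spec c3
  have s4 := lev_spec c4
  have b1 := b1 (by omega)
  have b2 := b2 (by omega)
  have b3 := b3 (by omega)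
  have b4 := b4 (by omega)
  rw [e1] at b1 b2 s3
  rw [e2] at b2 b3 s2
  rw [e3] at b3 b4 s1
  rw [e4] at b4 s4
  generalize lev (c u0) (c u1) = d at b1 b2 b3 b4 s0 s1 s2 s3 s4
  have n13 : u1.val ≠ u3.val := fun h => h13 (Fin.ext h)
  have n24 : u2.val ≠ u4.val := fun h => h24 (Fin.ext h)
  have l0 := u0.2
  have l1 := u1.2
  have l2 := u2.2
  have l3 := u3.2
  have l4 := u4.2
  have l5 := u5.2
  unfold enc at b1 b2 b3 b4
  cases t0 : (c u0).testBit d <;> cases t1 : (c u1).testBit d <;> cases t2 : (c u2).testBit d <;>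
    cases t3 : (c u3).testBit d <;> cases t4 : (c u4).testBit d <;> cases t5 : (c u5).testBit d <;>
    simp only [t0, t1, t2, t3, t4, t5, ne_eq, not_true_eq_false, Bool.false_eq_true, if_true,
      if_false] at s0 s1 s2 s3 s4 b1 b2 b3 b4 <;> omega

theorem no_copy {N m : ℕ} (hm : 0 < m) (c : Fin N → ℕ) (hc : ∀ x, c x < 2 ^ m) (u : ℕ → Fin N)
    (hinj : ∀ i j, i ≤ 5 * m → j ≤ 5 * m → u i = u j → i = j)
    (hadj : ∀ i, i < 5 * m → c (u i) ≠ c (u (i + 1)))
    (hk : ∀ i j, i < 5 * m → j < 5 * m → rk i < rk j →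
      key c (u i) (u (i + 1)) < key c (u j) (u (j + 1))) : False := by
  have hb : ∀ j, j < m → lev (c (u (5 * j))) (c (u (5 * j + 1))) <
      lev (c (u (5 * j + 4))) (c (u (5 * j + 5))) := by
    intro j hj
    have r0 : rk (5 * j) = 5 * j := by unfold rk; split_ifs <;> omega
    have r1 : rk (5 * j + 1) = 5 * j + 3 := by unfold rk; split_ifs <;> omega
    have r2 : rk (5 * j + 2) = 5 * j + 2 := by unfold rk; split_ifs <;> omega
    have r3 : rk (5 * j + 3) = 5 * j + 1 := by unfold rk; split_ifs <;> omega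
    have r4 : rk (5 * j + 4) = 5 * j + 4 := by unfold rk; split_ifs <;> omega
    refine block_lt c (u (5 * j)) (u (5 * j + 1)) (u (5 * j + 2)) (u (5 * j + 3)) (u (5 * j + 4))
      (u (5 * j + 5)) ?_ ?_ (hadj _ (by omega)) (hadj _ (by omega)) (hadj _ (by omega))
      (hadj _ (by omega)) (hadj _ (by omega)) (hk _ _ (by omega) (by omega) (by omega))
      (hk _ _ (by omega) (by omega) (by omega)) (hk _ _ (by omega) (by omega) (by omega))
      (hk _ _ (by omega) (by omega) (by omega))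
    · intro h
      have := hinj _ _ (by omega) (by omega) h
      omega
    · intro h
      have := hinj _ _ (by omega) (by omega) h
      omega
  have hl : ∀ j, j < m → j + 1 ≤ lev (c (u (5 * j + 4))) (c (u (5 * j + 5))) := by
    intro j
    induction j with
    | zero =>
      intro hj
      have := hb 0 hj
      omega
    | succ j ih =>
      intro hj
      have h1 := ih (by omega)
      have h2 := hb (j + 1) hj
      have r4 : rk (5 * j + 4) = 5 * j + 4 := by unfold rk; split_ifs <;> omega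
      have r5 : rk (5 * (j + 1)) = 5 * (j + 1) := by unfold rk; split_ifs <;> omega
      have h3 := (key_lt c (hk (5 * j + 4) (5 * (j + 1)) (by omega) (by omega) (by omega))).1
      have e : 5 * j + 4 + 1 = 5 * j + 5 := by omega
      rw [e] at h3
      omega
  have h1 := hl (m - 1) (by omega)
  have h2 := lev_lt (hadj (5 * (m - 1) + 4) (by omega)) (hc _) (hc _)
  have e : 5 * (m - 1) + 4 + 1 = 5 * (m - 1) + 5 := by omega
  rw [e] at h2
  omega

theorem lower (m : ℕ) (hm : 0 < m) (N : ℕ) (H : SimpleGraph (Fin N))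
    (hH : ∀ o : LinearOrder H.edgeSet,
      Contains H o (SimpleGraph.pathGraph (5 * m + 1)) (pathOrd (5 * m + 1))) :
    ((2 ^ m + 1 : ℕ) : ℕ∞) ≤ H.chromaticNumber := by
  by_contra hlt
  have hle : H.chromaticNumber ≤ ((2 ^ m : ℕ) : ℕ∞) := by
    push_cast at hlt ⊢
    exact Order.le_of_lt_add_one (not_le.mp hlt)
  obtain ⟨C⟩ := SimpleGraph.chromaticNumber_le_iff_colorable.mp hle
  let c : Fin N → ℕ := fun x => (C x).val
  obtain ⟨φ, hφ, hord⟩ := hH (LinearOrder.lift' (fun e => keyS c e.1)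
    (fun _ _ h => Subtype.ext (keyS_inj c h)))
  let u : ℕ → Fin N := fun i => φ ⟨min i (5 * m), by omega⟩
  have hu : ∀ i (hi : i < 5 * m + 1), u i = φ ⟨i, hi⟩ := by
    intro i hi
    simp only [u]
    congr 2
    omega
  refine no_copy hm c (fun x => (C x).2) u ?_ ?_ ?_
  · intro i j hi hj h
    rw [hu i (by omega), hu j (by omega)] at h
    simpa using hφ h
  · intro i hi h
    rw [hu i (by omega), hu (i + 1) (by omega)] at h
    have hadj : (SimpleGraph.pathGraph (5 * m + 1)).Adj ⟨i, by omega⟩ ⟨i + 1, by omega⟩ := by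
      rw [SimpleGraph.pathGraph_adj]
      left; rfl
    exact C.valid (φ.map_adj hadj) (Fin.ext h)
  · intro i j hi hj h
    have := (hord (edgeAt i (by omega)) (edgeAt j (by omega))).mp
      (by rw [pathOrd_lt, idx_edgeAt, idx_edgeAt]; exact h)
    rw [hu i (by omega), hu (i + 1) (by omega), hu j (by omega), hu (j + 1) (by omega)]
    exact this

end Pool.Agent.H349Z.OCN
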