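import Pool.Agent.H349Z.OCN.Lower
import Pool.Agent.Helper764.Jump_ramsey

namespace Pool.Agent.H349Z.OCN

/-- six comparison bits of an increasing quadruple -/
def bits (W : ℕ → ℕ → ℕ) (a b c d : ℕ) : Fin 6 → Bool :=
  ![decide (W a b < W a c), decide (W a c < W b c), decide (W a b < W b c),
    decide (W a b < W c d), decide (W a c < W b d), decide (W a d < W b c)]

theorem homog (n : ℕ) : ∃ M : ℕ, ∀ W : ℕ → ℕ → ℕ, ∃ t : ℕ → ℕ,
    (∀ i, i < n → t i < M) ∧ (∀ i j, i < j → j < n → t i < t j) ∧
    ∃ θ : Fin 6 → Bool, ∀ a b c d, a < b → b < c → c < d → d < n →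
      bits W (t a) (t b) (t c) (t d) = θ := by
  obtain ⟨M, hM⟩ := Jump764.M_ramsey.ram_all (Fintype.card (Fin 6 → Bool)) Fintype.card_pos 4 n
  refine ⟨M, fun W => ?_⟩
  let col : Finset ℕ → (Fin 6 → Bool) := fun e =>
    if h : e.card = 4 then bits W (e.orderEmbOfFin h 0) (e.orderEmbOfFin h 1)
      (e.orderEmbOfFin h 2) (e.orderEmbOfFin h 3) else fun _ => false
  obtain ⟨J, hJ, hJc, θ, hθ⟩ := hM (Finset.range M) (by simp)
    (fun e => Fintype.equivFin _ (col e))
  let t : ℕ → ℕ := fun i => if h : i < n then J.orderEmbOfFin hJc ⟨i, h⟩ else 0
  have ht : ∀ i (h : i < n), t i = J.orderEmbOfFin hJc ⟨i, h⟩ := fun i h => dif_pos h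
  have htJ : ∀ i, i < n → t i ∈ J := by
    intro i h
    rw [ht i h]
    exact J.orderEmbOfFin_mem hJc _
  have hmono : ∀ i j, i < j → j < n → t i < t j := by
    intro i j hij hj
    rw [ht i (by omega), ht j hj]
    exact (J.orderEmbOfFin hJc).strictMono (by simpa using hij)
  refine ⟨t, fun i h => Finset.mem_range.mp (hJ (htJ i h)), hmono,
    (Fintype.equivFin _).symm θ, ?_⟩
  intro a b c d hab hbc hcd hd
  have h1 := hmono a b hab (by omega)
  have h2 := hmono b c hbc (by omega)
  have h3 := hmono c d hcd hd
  let f : Fin 4 → ℕ := ![t a, t b, t c, t d]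
  have hf : StrictMono f := by
    rw [Fin.strictMono_iff_lt_succ]
    intro i
    fin_cases i <;> simp [f] <;> assumption
  have hcard : (Finset.univ.image f).card = 4 := by
    rw [Finset.card_image_of_injective _ hf.injective]
    simp
  have hsub : Finset.univ.image f ⊆ J := by
    intro x hx
    obtain ⟨i, _, rfl⟩ := Finset.mem_image.mp hx
    fin_cases i
    · exact htJ a (by omega)
    · exact htJ b (by omega)
    · exact htJ c (by omega)
    · exact htJ d hd
  have h := hθ _ hsub hcard
  have hu := Finset.orderEmbOfFin_unique hcard (f := f)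
    (fun i => Finset.mem_image_of_mem f (Finset.mem_univ i)) hf
  rw [← h, Equiv.symm_apply_apply]
  simp only [col, dif_pos hcard, ← hu]
  rfl

/-- a symmetric weight which is injective on pairs has a canonical sub-structure -/
theorem canon (n : ℕ) : ∃ M : ℕ, ∀ W : ℕ → ℕ → ℕ, (∀ x y, W x y = W y x) →
    (∀ x y x' y', x < y → y < M → x' < y' → y' < M → W x y = W x' y' → x = x' ∧ y = y') →
    ∃ t : ℕ → ℕ, (∀ i, i < n → t i < M) ∧ (∀ i j, i < n → j < n → t i = t j → i = j) ∧
      ((∀ a b c d, a < b → b < n → c < d → d < n → a < c → W (t a) (t b) < W (t c) (t d)) ∨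
       (∀ a b c d, a < b → b < n → c < d → d < n → a < c → W (t c) (t d) < W (t a) (t b))) ∧
      ((∀ a b c, a < b → b < c → c < n → W (t a) (t b) < W (t a) (t c)) ∨
       (∀ a b c, a < b → b < c → c < n → W (t a) (t c) < W (t a) (t b))) := by
  obtain ⟨M, hM⟩ := homog (n + 6)
  refine ⟨M, fun W hs hi => ?_⟩
  obtain ⟨t, htM, hmono, θ, hθ⟩ := hM W
  -- work with `V a b = W (t a) (t b)` on indices below `n + 5`
  have hne : ∀ a b c d, a < b → b < n + 6 → c < d → d < n + 6 → (a ≠ c ∨ b ≠ d) →
      W (t a) (t b) ≠ W (t c) (t d) := by
    intro a b c d hab hb hcd hd h heq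
    obtain ⟨h1, h2⟩ := hi _ _ _ _ (hmono a b hab hb) (htM b hb) (hmono c d hcd hd) (htM d hd) heq
    rcases h with h | h
    · rcases lt_or_gt_of_ne h with h | h
      · have := hmono a c h (by omega); omega
      · have := hmono c a h (by omega); omega
    · rcases lt_or_gt_of_ne h with h | h
      · have := hmono b d h (by omega); omega
      · have := hmono d b h (by omega); omega
  have tri : ∀ a b c, a < b → b < c → c < n + 5 →
      (decide (W (t a) (t b) < W (t a) (t c)) = θ 0) ∧
      (decide (W (t a) (t c) < W (t b) (t c)) = θ 1) ∧
      (decide (W (t a) (t b) < W (t b) (t c)) = θ 2) := by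
    intro a b c hab hbc hc
    have := hθ a b c (n + 5) hab hbc hc (by omega)
    rw [← this]
    exact ⟨rfl, rfl, rfl⟩
  have quad : ∀ a b c d, a < b → b < c → c < d → d < n + 5 →
      (decide (W (t a) (t b) < W (t c) (t d)) = θ 3) ∧
      (decide (W (t a) (t c) < W (t b) (t d)) = θ 4) ∧
      (decide (W (t a) (t d) < W (t b) (t c)) = θ 5) := by
    intro a b c d hab hbc hcd hd
    have := hθ a b c d hab hbc hcd (by omega)
    rw [← this]
    exact ⟨rfl, rfl, rfl⟩
  have A : (∀ a b c, a < b → b < c → c < n + 5 → W (t a) (t b) < W (t a) (t c)) ∨
      (∀ a b c, a < b → b < c → c < n + 5 → W (t a) (t c) < W (t a) (t b)) := by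
    cases h : θ 0
    · right
      intro a b c hab hbc hc
      have h1 := (tri a b c hab hbc hc).1
      have h2 := hne a b a c hab (by omega) (by omega) (by omega) (by omega)
      rw [h, decide_eq_false_iff_not] at h1
      omega
    · left
      intro a b c hab hbc hc
      have h1 := (tri a b c hab hbc hc).1
      rwa [h, decide_eq_true_iff] at h1
  have B : (∀ a b c, a < b → b < c → c < n + 5 → W (t a) (t c) < W (t b) (t c)) ∨
      (∀ a b c, a < b → b < c → c < n + 5 → W (t b) (t c) < W (t a) (t c)) := by
    cases h : θ 1
    · right
      intro a b c hab hbc hc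
      have h1 := (tri a b c hab hbc hc).2.1
      have h2 := hne a c b c (by omega) (by omega) (by omega) (by omega) (by omega)
      rw [h, decide_eq_false_iff_not] at h1
      omega
    · left
      intro a b c hab hbc hc
      have h1 := (tri a b c hab hbc hc).2.1
      rwa [h, decide_eq_true_iff] at h1
  have C : (∀ a b c, a < b → b < c → c < n + 5 → W (t a) (t b) < W (t b) (t c)) ∨
      (∀ a b c, a < b → b < c → c < n + 5 → W (t b) (t c) < W (t a) (t b)) := by
    cases h : θ 2
    · right
      intro a b c hab hbc hc
      have h1 := (tri a b c hab hbc hc).2.2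
      have h2 := hne a b b c (by omega) (by omega) (by omega) (by omega) (by omega)
      rw [h, decide_eq_false_iff_not] at h1
      omega
    · left
      intro a b c hab hbc hc
      have h1 := (tri a b c hab hbc hc).2.2
      rwa [h, decide_eq_true_iff] at h1
  have D : (∀ a b c d, a < b → b < c → c < d → d < n + 5 → W (t a) (t b) < W (t c) (t d)) ∨
      (∀ a b c d, a < b → b < c → c < d → d < n + 5 → W (t c) (t d) < W (t a) (t b)) := by
    cases h : θ 3
    · right
      intro a b c d hab hbc hcd hd
      have h1 := (quad a b c d hab hbc hcd hd).1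
      have h2 := hne a b c d (by omega) (by omega) (by omega) (by omega) (by omega)
      rw [h, decide_eq_false_iff_not] at h1
      omega
    · left
      intro a b c d hab hbc hcd hd
      have h1 := (quad a b c d hab hbc hcd hd).1
      rwa [h, decide_eq_true_iff] at h1
  have E : (∀ a b c d, a < b → b < c → c < d → d < n + 5 → W (t a) (t c) < W (t b) (t d)) ∨
      (∀ a b c d, a < b → b < c → c < d → d < n + 5 → W (t b) (t d) < W (t a) (t c)) := by
    cases h : θ 4
    · right
      intro a b c d hab hbc hcd hd
      have h1 := (quad a b c d hab hbc hcd hd).2.1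
      have h2 := hne a c b d (by omega) (by omega) (by omega) (by omega) (by omega)
      rw [h, decide_eq_false_iff_not] at h1
      omega
    · left
      intro a b c d hab hbc hcd hd
      have h1 := (quad a b c d hab hbc hcd hd).2.1
      rwa [h, decide_eq_true_iff] at h1
  have F : (∀ a b c d, a < b → b < c → c < d → d < n + 5 → W (t a) (t d) < W (t b) (t c)) ∨
      (∀ a b c d, a < b → b < c → c < d → d < n + 5 → W (t b) (t c) < W (t a) (t d)) := by
    cases h : θ 5
    · right
      intro a b c d hab hbc hcd hd
      have h1 := (quad a b c d hab hbc hcd hd).2.2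
      have h2 := hne a d b c (by omega) (by omega) (by omega) (by omega) (by omega)
      rw [h, decide_eq_false_iff_not] at h1
      omega
    · left
      intro a b c d hab hbc hcd hd
      have h1 := (quad a b c d hab hbc hcd hd).2.2
      rwa [h, decide_eq_true_iff] at h1
  have tinj : ∀ i j, i < n + 6 → j < n + 6 → t i = t j → i = j := by
    intro i j hi hj h
    rcases lt_trichotomy i j with h' | h' | h'
    · have := hmono i j h' hj; omega
    · exact h'
    · have := hmono j i h' hi; omega
  -- the forward and the reversed enumeration
  have fwd : ((∀ a b c d, a < b → b < n → c < d → d < n → a < c → W (t a) (t b) < W (t c) (t d)) ∨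
       (∀ a b c d, a < b → b < n → c < d → d < n → a < c → W (t c) (t d) < W (t a) (t b))) →
      ∃ t : ℕ → ℕ, (∀ i, i < n → t i < M) ∧ (∀ i j, i < n → j < n → t i = t j → i = j) ∧
      ((∀ a b c d, a < b → b < n → c < d → d < n → a < c → W (t a) (t b) < W (t c) (t d)) ∨
       (∀ a b c d, a < b → b < n → c < d → d < n → a < c → W (t c) (t d) < W (t a) (t b))) ∧
      ((∀ a b c, a < b → b < c → c < n → W (t a) (t b) < W (t a) (t c)) ∨
       (∀ a b c, a < b → b < c → c < n → W (t a) (t c) < W (t a) (t b))) := by
    intro h
    refine ⟨t, fun i hi => htM i (by omega), fun i j hi hj => tinj i j (by omega) (by omega), h, ?_⟩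
    rcases A with A | A
    · exact Or.inl fun a b c h1 h2 h3 => A a b c h1 h2 (by omega)
    · exact Or.inr fun a b c h1 h2 h3 => A a b c h1 h2 (by omega)
  have bwd : ((∀ a b c d, a < b → b < n → c < d → d < n → b < d → W (t a) (t b) < W (t c) (t d)) ∨
       (∀ a b c d, a < b → b < n → c < d → d < n → b < d → W (t c) (t d) < W (t a) (t b))) →
      ∃ t : ℕ → ℕ, (∀ i, i < n → t i < M) ∧ (∀ i j, i < n → j < n → t i = t j → i = j) ∧
      ((∀ a b c d, a < b → b < n → c < d → d < n → a < c → W (t a) (t b) < W (t c) (t d)) ∨
       (∀ a b c d, a < b → b < n → c < d → d < n → a < c → W (t c) (t d) < W (t a) (t b))) ∧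
      ((∀ a b c, a < b → b < c → c < n → W (t a) (t b) < W (t a) (t c)) ∨
       (∀ a b c, a < b → b < c → c < n → W (t a) (t c) < W (t a) (t b))) := by
    intro h
    refine ⟨fun i => t (n - 1 - i), fun i hi => htM _ (by omega), fun i j hi hj hij => ?_, ?_, ?_⟩
    · have := tinj _ _ (by omega) (by omega) hij
      omega
    · rcases h with h | h
      · right
        intro a b c d hab hb hcd hd hac
        have := h (n - 1 - d) (n - 1 - c) (n - 1 - b) (n - 1 - a) (by omega) (by omega) (by omega)
          (by omega) (by omega)
        rw [hs (t (n - 1 - c)), hs (t (n - 1 - a))]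
        exact this
      · left
        intro a b c d hab hb hcd hd hac
        have := h (n - 1 - d) (n - 1 - c) (n - 1 - b) (n - 1 - a) (by omega) (by omega) (by omega)
          (by omega) (by omega)
        rw [hs (t (n - 1 - c)), hs (t (n - 1 - a))]
        exact this
    · rcases B with B | B
      · right
        intro a b c hab hbc hc
        have := B (n - 1 - c) (n - 1 - b) (n - 1 - a) (by omega) (by omega) (by omega)
        rw [hs (t (n - 1 - a)), hs (t (n - 1 - a))]
        exact this
      · left
        intro a b c hab hbc hc
        have := B (n - 1 - c) (n - 1 - b) (n - 1 - a) (by omega) (by omega) (by omega)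
        rw [hs (t (n - 1 - a)), hs (t (n - 1 - a))]
        exact this
  rcases C with C | C
  · have c1 := C 0 1 2 (by omega) (by omega) (by omega)
    have c2 := C 1 2 3 (by omega) (by omega) (by omega)
    have c3 := C 0 2 4 (by omega) (by omega) (by omega)
    have D' : ∀ a b c d, a < b → b < c → c < d → d < n + 5 → W (t a) (t b) < W (t c) (t d) := by
      rcases D with D | D
      · exact D
      · have := D 0 1 2 3 (by omega) (by omega) (by omega) (by omega)
        omega
    have E' : ∀ a b c d, a < b → b < c → c < d → d < n + 5 → W (t a) (t c) < W (t b) (t d) := by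
      rcases E with E | E
      · exact E
      · have := E 0 1 2 3 (by omega) (by omega) (by omega) (by omega)
        have := E 1 2 3 4 (by omega) (by omega) (by omega) (by omega)
        omega
    rcases F with F | F
    · have B' : ∀ a b c, a < b → b < c → c < n + 5 → W (t a) (t c) < W (t b) (t c) := by
        rcases B with B | B
        · exact B
        · have := B 0 2 3 (by omega) (by omega) (by omega)
          have := F 0 1 2 3 (by omega) (by omega) (by omega) (by omega)
          omega
      refine fwd (Or.inl ?_)
      intro a b c d hab hb hcd hd hac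
      rcases lt_trichotomy b c with h | h | h
      · exact D' a b c d hab h hcd (by omega)
      · subst h
        exact C a b d hab hcd (by omega)
      · rcases lt_trichotomy b d with h' | h' | h'
        · exact E' a c b d hac h h' (by omega)
        · subst h'
          exact B' a c b hac h (by omega)
        · exact F a c d b hac hcd h' (by omega)
    · have A' : ∀ a b c, a < b → b < c → c < n + 5 → W (t a) (t b) < W (t a) (t c) := by
        rcases A with A | A
        · exact A
        · have := A 0 1 3 (by omega) (by omega) (by omega)
          have := F 0 1 2 3 (by omega) (by omega) (by omega) (by omega)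
          omega
      refine bwd (Or.inl ?_)
      intro a b c d hab hb hcd hd hbd
      rcases lt_trichotomy b c with h | h | h
      · exact D' a b c d hab h hcd (by omega)
      · subst h
        exact C a b d hab hcd (by omega)
      · rcases lt_trichotomy a c with h' | h' | h'
        · exact E' a c b d h' h hbd (by omega)
        · subst h'
          exact A' a b d hab hbd (by omega)
        · exact F c a b d h' hab hbd (by omega)
  · have c1 := C 0 1 2 (by omega) (by omega) (by omega)
    have c2 := C 1 2 3 (by omega) (by omega) (by omega)
    have c3 := C 0 2 4 (by omega) (by omega) (by omega)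
    have D' : ∀ a b c d, a < b → b < c → c < d → d < n + 5 → W (t c) (t d) < W (t a) (t b) := by
      rcases D with D | D
      · have := D 0 1 2 3 (by omega) (by omega) (by omega) (by omega)
        omega
      · exact D
    have E' : ∀ a b c d, a < b → b < c → c < d → d < n + 5 → W (t b) (t d) < W (t a) (t c) := by
      rcases E with E | E
      · have := E 0 1 2 3 (by omega) (by omega) (by omega) (by omega)
        have := E 1 2 3 4 (by omega) (by omega) (by omega) (by omega)
        omega
      · exact E
    rcases F with F | F
    · have A' : ∀ a b c, a < b → b < c → c < n + 5 → W (t a) (t c) < W (t a) (t b) := by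
        rcases A with A | A
        · have := A 0 1 3 (by omega) (by omega) (by omega)
          have := F 0 1 2 3 (by omega) (by omega) (by omega) (by omega)
          omega
        · exact A
      refine bwd (Or.inr ?_)
      intro a b c d hab hb hcd hd hbd
      rcases lt_trichotomy b c with h | h | h
      · exact D' a b c d hab h hcd (by omega)
      · subst h
        exact C a b d hab hcd (by omega)
      · rcases lt_trichotomy a c with h' | h' | h'
        · exact E' a c b d h' h hbd (by omega)
        · subst h'
          exact A' a b d hab hbd (by omega)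
        · exact F c a b d h' hab hbd (by omega)
    · have B' : ∀ a b c, a < b → b < c → c < n + 5 → W (t b) (t c) < W (t a) (t c) := by
        rcases B with B | B
        · have := B 0 2 3 (by omega) (by omega) (by omega)
          have := F 0 1 2 3 (by omega) (by omega) (by omega) (by omega)
          omega
        · exact B
      refine fwd (Or.inr ?_)
      intro a b c d hab hb hcd hd hac
      rcases lt_trichotomy b c with h | h | h
      · exact D' a b c d hab h hcd (by omega)
      · subst h
        exact C a b d hab hcd (by omega)
      · rcases lt_trichotomy b d with h' | h' | h'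
        · exact E' a c b d hac h h' (by omega)
        · subst h'
          exact B' a c b hac h (by omega)
        · exact F a c d b hac hcd h' (by omega)

end Pool.Agent.H349Z.OCN
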